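import Pool.Agent.H67R3.Cond5

set_option autoImplicit false

namespace Pool.Agent.Results.MP_f5330b_al.CondensedNotQI

open Pool.Agent.H67R3 Pool.Agent.H67R3.CondDefs Pool.Agent.H67R3.Cond

/-- Condensedness is not invariant under quasi-isometry: there are finitely generated
quasi-isometric groups `G` and `H` such that `G` is condensed and `H` is not. In fact `H` is the
quotient of `G` by a central subgroup of order two. -/
theorem result : ∃ (G H : Type) (_ : Group G) (_ : Group H),
    Group.FG G ∧ Group.FG H ∧ QuasiIsometric G H ∧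
    (∃ φ : G →* H, Function.Surjective φ ∧ Nat.card φ.ker = 2 ∧ φ.ker ≤ Subgroup.center G) ∧
    Condensed G ∧ ¬ Condensed H := by
  have hfg := fg_A
  exact ⟨A ⧸ V T0, A ⧸ V T1, inferInstance, inferInstance, QuotientGroup.fg (V T0),
    QuotientGroup.fg (V T1), qi_main, ⟨qmap, qmap_surj, qmap_ker_card, qmap_ker_central⟩,
    condensed_T0, not_condensed_T1⟩

end Pool.Agent.Results.MP_f5330b_al.CondensedNotQI
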